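import Pool.Agent.SqfDen.Defs
/-! package D (helper41, double): the large primes. -/

set_option autoImplicit false

namespace SqfDen

open Finset

open Classical in
theorem large_primes (L Z X : ℕ) (hZ : 0 < Z) :
    (((Finset.range X).filter (fun n => ∃ l ∈ Finset.Icc 1 L, 2 ^ l < n ∧
      ∃ p : ℕ, p.Prime ∧ Z < p ∧ p ^ 2 ∣ n - 2 ^ l)).card : ℝ) ≤ L * ((X : ℝ) / Z) := by
  have h1 : (Finset.range X).filter (fun n => ∃ l ∈ Finset.Icc 1 L, 2 ^ l < n ∧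
      ∃ p : ℕ, p.Prime ∧ Z < p ∧ p ^ 2 ∣ n - 2 ^ l) ⊆
      (Icc 1 L).biUnion fun l => (Ioc Z X).biUnion fun p =>
        (Icc 1 (X / p ^ 2)).image fun t => 2 ^ l + p ^ 2 * t := by
    intro n hn
    rw [mem_filter, mem_range] at hn
    obtain ⟨hnX, l, hl, hln, p, hp, hZp, t, ht⟩ := hn
    have hp2 : 0 < p ^ 2 := pow_pos hp.pos 2
    have ht0 : 0 < t := by
      rcases Nat.eq_zero_or_pos t with h | h
      · subst h
        omega
      · exact h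
    have h2 : p ^ 2 * t < X := by
      rw [← ht]
      exact lt_of_le_of_lt (Nat.sub_le _ _) hnX
    have h3 : p ^ 2 ≤ p ^ 2 * t := Nat.le_mul_of_pos_right _ ht0
    have h4 : p ≤ p ^ 2 := Nat.le_self_pow two_ne_zero p
    refine mem_biUnion.2 ⟨l, hl, mem_biUnion.2 ⟨p, mem_Ioc.2 ⟨hZp, by omega⟩, ?_⟩⟩
    refine mem_image.2 ⟨t, mem_Icc.2 ⟨ht0, ?_⟩, ?_⟩
    · rw [Nat.le_div_iff_mul_le hp2, mul_comm]
      exact h2.le
    · omega
  have h2 : ((Finset.range X).filter (fun n => ∃ l ∈ Finset.Icc 1 L, 2 ^ l < n ∧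
      ∃ p : ℕ, p.Prime ∧ Z < p ∧ p ^ 2 ∣ n - 2 ^ l)).card ≤
      ∑ _l ∈ Icc 1 L, ∑ p ∈ Ioc Z X, X / p ^ 2 := by
    refine (card_le_card h1).trans (card_biUnion_le.trans (sum_le_sum fun l _ => ?_))
    refine card_biUnion_le.trans (sum_le_sum fun p _ => ?_)
    refine card_image_le.trans ?_
    rw [Nat.card_Icc, Nat.add_sub_cancel]
  have h3 : (((Finset.range X).filter (fun n => ∃ l ∈ Finset.Icc 1 L, 2 ^ l < n ∧
      ∃ p : ℕ, p.Prime ∧ Z < p ∧ p ^ 2 ∣ n - 2 ^ l)).card : ℝ) ≤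
      ∑ _l ∈ Icc 1 L, ∑ p ∈ Ioc Z X, ((X / p ^ 2 : ℕ) : ℝ) := by exact_mod_cast h2
  refine h3.trans ?_
  rw [sum_const, Nat.card_Icc, Nat.add_sub_cancel, nsmul_eq_mul]
  refine mul_le_mul_of_nonneg_left ?_ (Nat.cast_nonneg L)
  calc ∑ p ∈ Ioc Z X, ((X / p ^ 2 : ℕ) : ℝ) ≤ ∑ p ∈ Ioc Z X, (X : ℝ) * ((p : ℝ) ^ 2)⁻¹ :=
        sum_le_sum fun p _ => by
          have := Nat.cast_div_le (α := ℝ) (m := X) (n := p ^ 2)
          push_cast at this
          rwa [div_eq_mul_inv] at this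
    _ = X * ∑ p ∈ Ioc Z X, ((p : ℝ) ^ 2)⁻¹ := by rw [mul_sum]
    _ ≤ X * (Z : ℝ)⁻¹ := by
        refine mul_le_mul_of_nonneg_left ?_ (Nat.cast_nonneg X)
        rcases le_or_gt Z X with h | h
        · have h4 := sum_Ioc_inv_sq_le_sub (α := ℝ) hZ.ne' h
          have h5 : (0 : ℝ) ≤ (X : ℝ)⁻¹ := by positivity
          linarith
        · rw [Ioc_eq_empty (by omega), sum_empty]
          positivity
    _ = X / Z := by rw [div_eq_mul_inv]

end SqfDen
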