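import Pool.Agent.SqfDen.Gap

/-! The primes below 1000: the orders of 2 modulo `p ^ 2`, capped at 2000, computed by the kernel. -/

namespace SqfDen

/-- First `i ≥ j` (at most `f` further steps) with `2 ^ (i - j) * x ≡ 1` modulo `m`. -/
def ordCap (m : ℕ) : ℕ → ℕ → ℕ → ℕ
  | _, j, 0 => j
  | x, j, f + 1 => if x = 1 then j else ordCap m (2 * x % m) (j + 1) f

theorem ordCap_le (m : ℕ) : ∀ f x j, j ≤ ordCap m x j f := by
  intro f
  induction f with
  | zero => intro x j; exact le_refl _
  | succ f ih =>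
    intro x j
    unfold ordCap
    split_ifs
    · exact le_refl _
    · exact (Nat.le_succ j).trans (ih _ _)

theorem ordCap_spec (m : ℕ) : ∀ f x j i, x < m → j ≤ i → i < ordCap m x j f →
    2 ^ (i - j) * x % m ≠ 1 := by
  intro f
  induction f with
  | zero =>
    intro x j i _ h1 h2
    unfold ordCap at h2
    omega
  | succ f ih =>
    intro x j i hx h1 h2
    unfold ordCap at h2
    split_ifs at h2 with hx1
    · omega
    · rcases Nat.eq_or_lt_of_le h1 with h3 | h3
      · subst h3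
        rw [Nat.sub_self, pow_zero, one_mul, Nat.mod_eq_of_lt hx]
        exact hx1
      · have h4 := ih (2 * x % m) (j + 1) i (Nat.mod_lt _ (by omega)) h3 h2
        rw [← Nat.mul_mod_mod] at h4
        rw [← Nat.mul_mod_mod]
        have h5 : i - j = i - (j + 1) + 1 := by omega
        rw [h5, pow_succ, Nat.mul_mod_mod, mul_assoc]
        rwa [Nat.mul_mod_mod, Nat.mul_mod_mod] at h4

/-- A test which every odd prime below 1000 passes. -/
def pass (p : ℕ) : Bool :=
  decide (2 < p) && decide (p % 2 ≠ 0) &&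
    [3, 5, 7, 11, 13, 17, 19, 23, 29, 31].all (fun d => decide (¬ (d < p ∧ p % d = 0)))

/-- The bound for the prime `p`. -/
def bnd (p : ℕ) : ℕ :=
  if pass p then 100000 / ordCap (p ^ 2) (2 % p ^ 2) 1 1999 + 1 else 0

theorem pass_of_prime (p : ℕ) (hp : p.Prime) (hp2 : p ≠ 2) : pass p = true := by
  have h2 : 2 < p := lt_of_le_of_ne hp.two_le (Ne.symm hp2)
  have hdiv : ∀ d, 2 ≤ d → d < p → p % d ≠ 0 := by
    intro d hd hdp h
    rcases (Nat.dvd_prime hp).1 (Nat.dvd_of_mod_eq_zero h) with h3 | h3 <;> omega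
  unfold pass
  rw [Bool.and_eq_true, Bool.and_eq_true, decide_eq_true_eq, decide_eq_true_eq,
    List.all_eq_true]
  refine ⟨⟨h2, hdiv 2 le_rfl h2⟩, ?_⟩
  intro d hd
  rw [decide_eq_true_eq]
  rintro ⟨h3, h4⟩
  refine hdiv d ?_ h3 h4
  simp only [List.mem_cons, List.not_mem_nil, or_false] at hd
  omega

theorem bnd_sum : ∑ p ∈ Finset.range 1000, bnd p ≤ 39000 := by
  decide +kernel

theorem small_block (n : ℕ) :
    ∑ p ∈ (Finset.range 1000).filter (fun p => p.Prime ∧ p ≠ 2), hits 100000 n p ≤ 39000 := by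
  refine le_trans ?_ bnd_sum
  calc ∑ p ∈ (Finset.range 1000).filter (fun p => p.Prime ∧ p ≠ 2), hits 100000 n p
      ≤ ∑ p ∈ (Finset.range 1000).filter (fun p => p.Prime ∧ p ≠ 2), bnd p := by
        refine Finset.sum_le_sum (fun p hp => ?_)
        rw [Finset.mem_filter] at hp
        obtain ⟨_, hp1, hp2⟩ := hp
        have hpass := pass_of_prime p hp1 hp2
        unfold bnd
        rw [if_pos hpass]
        have hm : 1 < p ^ 2 := Nat.one_lt_pow two_ne_zero hp1.one_lt
        refine hits_le 100000 n p _ hp1 hp2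
          (lt_of_lt_of_le one_pos (ordCap_le (p ^ 2) 1999 (2 % p ^ 2) 1)) (fun j h0 h1 => ?_)
        have h3 := ordCap_spec (p ^ 2) 1999 (2 % p ^ 2) 1 j (Nat.mod_lt _ (by omega)) h0 h1
        rw [Nat.mul_mod_mod, ← pow_succ, Nat.sub_add_cancel h0] at h3
        exact h3
    _ ≤ ∑ p ∈ Finset.range 1000, bnd p :=
        Finset.sum_le_sum_of_subset (Finset.filter_subset _ _)

end SqfDen
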