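import Pool.Agent.SqfDen.CountE
import Pool.Agent.SqfDen.Small
import Pool.Agent.SqfDen.Large

/-! Assembly of the explicit density bound. -/

namespace SqfDen

/-- The odd exceptions below `X` for one power of 2 with an exponent between 1 and `L`. -/
noncomputable def bad (L X : ℕ) : Finset ℕ := by
  classical
  exact (Finset.range X).filter
    (fun n => Odd n ∧ ¬ ∃ k l : ℕ, Squarefree k ∧ l < L ∧ n = k + 2 ^ (l + 1))

theorem mem_bad (L X n : ℕ) : n ∈ bad L X ↔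
    n < X ∧ Odd n ∧ ¬ ∃ k l : ℕ, Squarefree k ∧ l < L ∧ n = k + 2 ^ (l + 1) := by
  classical
  simp only [bad, Finset.mem_filter, Finset.mem_range]

theorem not_prime_1000 : ¬ Nat.Prime 1000 := by norm_num

theorem exists_sq (m : ℕ) (h : ¬ Squarefree m) : ∃ p : ℕ, p.Prime ∧ p * p ∣ m := by
  by_contra h0
  push Not at h0
  exact h (Nat.squarefree_iff_prime_squarefree.2 h0)

theorem exists_prime (L n l : ℕ) (hl : 1 ≤ l) (hlL : l ≤ L) (hn : Odd n) (hlt : 2 ^ l < n)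
    (hb : ¬ ∃ k l : ℕ, Squarefree k ∧ l < L ∧ n = k + 2 ^ (l + 1)) :
    ∃ p : ℕ, p.Prime ∧ p ≠ 2 ∧ p ^ 2 ∣ n - 2 ^ l ∧ n ≡ 2 ^ l [MOD p ^ 2] := by
  have hnsq : ¬ Squarefree (n - 2 ^ l) := by
    intro hs
    refine hb ⟨n - 2 ^ l, l - 1, hs, by omega, ?_⟩
    rw [Nat.sub_add_cancel hl]
    omega
  obtain ⟨p, hp, hpd⟩ := exists_sq _ hnsq
  have hpd2 : p ^ 2 ∣ n - 2 ^ l := by rw [pow_two]; exact hpd
  refine ⟨p, hp, ?_, hpd2, ((Nat.modEq_iff_dvd' hlt.le).2 hpd2).symm⟩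
  rintro rfl
  have h4 : 2 ∣ n - 2 ^ l := dvd_trans (by norm_num) hpd
  have h2 : 2 ∣ 2 ^ l := dvd_pow_self 2 (by omega)
  have h3 : 2 ∣ n := by
    have := (Nat.dvd_add_right h4).2 h2
    rwa [Nat.sub_add_cancel hlt.le] at this
  exact (Nat.not_even_iff_odd.2 hn) (even_iff_two_dvd.2 h3)

theorem hits_lower (L Z n : ℕ) (U T : Finset ℕ) (hU : ∀ p, p.Prime → p ≠ 2 → p < 1000 → p ∈ U)
    (hT : ∀ p, p.Prime → 1000 < p → p ≤ Z → p ∈ T) (hn : Odd n) (hnL : 2 ^ L < n)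
    (hb : ¬ ∃ k l : ℕ, Squarefree k ∧ l < L ∧ n = k + 2 ^ (l + 1))
    (hZ : ¬ ∃ l ∈ Finset.Icc 1 L, 2 ^ l < n ∧ ∃ p : ℕ, p.Prime ∧ Z < p ∧ p ^ 2 ∣ n - 2 ^ l) :
    L ≤ ∑ p ∈ U, hits L n p + ∑ p ∈ T, hits L n p := by
  classical
  have hex : ∀ l ∈ Finset.Icc 1 L, ∃ p, (p ∈ U ∨ p ∈ T) ∧ n ≡ 2 ^ l [MOD p ^ 2] := by
    intro l hl
    have hl' := Finset.mem_Icc.1 hl
    have hle : 2 ^ l ≤ 2 ^ L := Nat.pow_le_pow_right (by norm_num) hl'.2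
    have hlt : 2 ^ l < n := lt_of_le_of_lt hle hnL
    have h := exists_prime L n l hl'.1 hl'.2 hn hlt hb
    obtain ⟨p, hp, hp2, hpd2, hmod⟩ := h
    have hpZ : p ≤ Z := by
      by_contra hlt'
      exact hZ ⟨l, hl, hlt, p, hp, not_le.1 hlt', hpd2⟩
    refine ⟨p, ?_, hmod⟩
    rcases lt_trichotomy p 1000 with h | h | h
    · exact Or.inl (hU p hp hp2 h)
    · exfalso
      rw [h] at hp
      exact not_prime_1000 hp
    · exact Or.inr (hT p hp h hpZ)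
  have hsub : Finset.Icc 1 L ⊆
      (U.biUnion (fun p => (Finset.Icc 1 L).filter (fun l => n ≡ 2 ^ l [MOD p ^ 2]))) ∪
      (T.biUnion (fun p => (Finset.Icc 1 L).filter (fun l => n ≡ 2 ^ l [MOD p ^ 2]))) := by
    intro l hl
    rcases hex l hl with ⟨p, hp | hp, hmod⟩
    · exact Finset.mem_union_left _
        (Finset.mem_biUnion.2 ⟨p, hp, Finset.mem_filter.2 ⟨hl, hmod⟩⟩)
    · exact Finset.mem_union_right _
        (Finset.mem_biUnion.2 ⟨p, hp, Finset.mem_filter.2 ⟨hl, hmod⟩⟩)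
  have h1 := Finset.card_le_card hsub
  rw [Nat.card_Icc, Nat.add_sub_cancel] at h1
  refine h1.trans ((Finset.card_union_le _ _).trans (add_le_add ?_ ?_))
  · exact Finset.card_biUnion_le
  · exact Finset.card_biUnion_le

theorem bad_card (L Z X : ℕ) (hL : L = 100000) (hZ : 1000 ≤ Z) : ((bad L X).card : ℝ) ≤
    X * (∏ j ∈ Finset.range 12, ((100 : ℝ) / (((61000 : ℕ) : ℝ) - j * ((5001 : ℕ) : ℝ)))) +
      100000 * ((X : ℝ) / Z) + ((Z : ℝ) * 100000) ^ 12 + ((2 : ℝ) ^ L + 1) := by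
  classical
  obtain ⟨T, hTdef⟩ : ∃ T, T = (Finset.Ioc 1000 Z).filter (fun p => p.Prime) := ⟨_, rfl⟩
  have hT : ∀ p ∈ T, p.Prime := by
    intro p hp
    rw [hTdef] at hp
    exact (Finset.mem_filter.1 hp).2
  have hTcard : (T.card : ℝ) ≤ Z := by
    have h1 : T.card ≤ Z := by
      rw [hTdef]
      refine (Finset.card_filter_le _ _).trans ?_
      rw [Nat.card_Ioc]
      omega
    exact_mod_cast h1
  have hS : (L : ℝ) * ∑ p ∈ T, ((p : ℝ) ^ 2)⁻¹ ≤ 100 := by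
    have h1 : ∑ p ∈ T, ((p : ℝ) ^ 2)⁻¹ ≤ ∑ p ∈ Finset.Ioc 1000 Z, ((p : ℝ) ^ 2)⁻¹ := by
      rw [hTdef]
      exact Finset.sum_le_sum_of_subset_of_nonneg (Finset.filter_subset _ _)
        (fun p _ _ => by positivity)
    have h2 : ∑ p ∈ Finset.Ioc 1000 Z, ((p : ℝ) ^ 2)⁻¹ ≤ ((1000 : ℕ) : ℝ)⁻¹ - (Z : ℝ)⁻¹ :=
      sum_Ioc_inv_sq_le_sub (by norm_num) hZ
    have h3 : (0 : ℝ) ≤ (Z : ℝ)⁻¹ := by positivity
    have h4 : ∑ p ∈ T, ((p : ℝ) ^ 2)⁻¹ ≤ (1000 : ℝ)⁻¹ := by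
      push_cast at h2
      linarith
    rw [hL]
    push_cast
    calc (100000 : ℝ) * ∑ p ∈ T, ((p : ℝ) ^ 2)⁻¹ ≤ 100000 * (1000 : ℝ)⁻¹ := by gcongr
      _ = 100 := by norm_num
  have hk : ∀ j < 12, j * 5001 < 61000 := by intro j hj; omega
  obtain ⟨B1, hB1⟩ : ∃ B1, B1 = (Finset.range X).filter (fun n => ∃ l ∈ Finset.Icc 1 L,
    2 ^ l < n ∧ ∃ p : ℕ, p.Prime ∧ Z < p ∧ p ^ 2 ∣ n - 2 ^ l) := ⟨_, rfl⟩
  obtain ⟨B2, hB2⟩ : ∃ B2, B2 = (bad L X).filter (fun n => 2 ^ L < n ∧ n ∉ B1) := ⟨_, rfl⟩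
  have hcov : bad L X ⊆ Finset.range (2 ^ L + 1) ∪ (B1 ∪ B2) := by
    intro n hn
    rw [Finset.mem_union, Finset.mem_union, Finset.mem_range]
    by_cases h1 : 2 ^ L < n
    · right
      by_cases h2 : n ∈ B1
      · exact Or.inl h2
      · right
        rw [hB2]
        exact Finset.mem_filter.2 ⟨hn, h1, h2⟩
    · left
      omega
  have hcard : ((bad L X).card : ℝ) ≤ ((2 : ℝ) ^ L + 1) + ((B1.card : ℝ) + (B2.card : ℝ)) := by
    have h1 := Finset.card_le_card hcov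
    have h2 := Finset.card_union_le (Finset.range (2 ^ L + 1)) (B1 ∪ B2)
    have h3 := Finset.card_union_le B1 B2
    rw [Finset.card_range] at h2
    have h4 : (bad L X).card ≤ (2 ^ L + 1) + (B1.card + B2.card) := by omega
    exact_mod_cast h4
  have hc1 : (B1.card : ℝ) ≤ L * ((X : ℝ) / Z) := by
    rw [hB1]
    have h := large_primes L Z X (by omega)
    convert h
  have hmem : ∀ n ∈ B2, n < X ∧ Odd n ∧
      (¬ ∃ k l : ℕ, Squarefree k ∧ l < L ∧ n = k + 2 ^ (l + 1)) ∧ 2 ^ L < n ∧ n ∉ B1 := by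
    intro n hn
    rw [hB2, Finset.mem_filter, mem_bad] at hn
    exact ⟨hn.1.1, hn.1.2.1, hn.1.2.2, hn.2.1, hn.2.2⟩
  have hc2 : (B2.card : ℝ) ≤
      X * ∏ j ∈ Finset.range 12, ((100 : ℝ) / (((61000 : ℕ) : ℝ) - j * ((5001 : ℕ) : ℝ))) +
        ((T.card : ℝ) * L) ^ 12 := by
    refine count_induct T hT L 5001 61000 12 100 hS hk X B2 ?_ ?_ ?_
    · intro n hn
      exact Finset.mem_range.2 (hmem n hn).1
    · intro n hn
      obtain ⟨hX, hodd, hb, hnL, hnB⟩ := hmem n hn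
      have hZ' : ¬ ∃ l ∈ Finset.Icc 1 L, 2 ^ l < n ∧
          ∃ p : ℕ, p.Prime ∧ Z < p ∧ p ^ 2 ∣ n - 2 ^ l := by
        intro h
        exact hnB (by rw [hB1]; exact Finset.mem_filter.2 ⟨Finset.mem_range.2 hX, h⟩)
      have h1 := hits_lower L Z n
        ((Finset.range 1000).filter (fun p => p.Prime ∧ p ≠ 2)) T
        (fun p h1 h2 h3 => Finset.mem_filter.2 ⟨Finset.mem_range.2 h3, h1, h2⟩)
        (fun p h1 h2 h3 => by
          rw [hTdef]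
          exact Finset.mem_filter.2 ⟨Finset.mem_Ioc.2 ⟨h2, h3⟩, h1⟩) hodd hnL hb hZ'
      have h2 := small_block n
      rw [← hL] at h2
      omega
    · intro n hn p hp
      rw [hTdef, Finset.mem_filter, Finset.mem_Ioc] at hp
      have h := big_block n p hp.2 hp.1.1
      rwa [← hL] at h
  have hc3 : ((T.card : ℝ) * L) ^ 12 ≤ ((Z : ℝ) * 100000) ^ 12 := by
    have hLr : (L : ℝ) = 100000 := by rw [hL]; norm_num
    rw [hLr]
    gcongr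
  rw [hL] at hc1
  push_cast at hc1
  linarith

open Classical in
theorem density_bound (X : ℕ) (hX : 2 ^ 100200 ≤ X) :
    10 ^ 29 * ((Finset.range X).filter
      (fun n => Odd n ∧ ¬ ∃ k l : ℕ, Squarefree k ∧ l < 100000 ∧ n = k + 2 ^ (l + 1))).card ≤
      X := by
  obtain ⟨L, hL⟩ : ∃ L : ℕ, L = 100000 := ⟨_, rfl⟩
  have hX1 : 2 ^ (L + 200) ≤ X := by rw [hL]; exact hX
  obtain ⟨Z, hZ⟩ : ∃ Z : ℕ, Z = 10 ^ 36 := ⟨_, rfl⟩
  have hZr : (Z : ℝ) = 10 ^ 36 := by rw [hZ]; push_cast; ring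
  have h1 := bad_card L Z X hL (by rw [hZ]; norm_num)
  have hprod : ∏ j ∈ Finset.range 12, ((100 : ℝ) / (((61000 : ℕ) : ℝ) - j * ((5001 : ℕ) : ℝ))) ≤
      5 / 10 ^ 30 := by
    simp only [Finset.prod_range_succ, Finset.prod_range_zero]
    norm_num
  have hX0 : (0 : ℝ) ≤ X := Nat.cast_nonneg X
  obtain ⟨a, ha⟩ : ∃ a : ℝ, a = 2 ^ L := ⟨_, rfl⟩
  obtain ⟨b, hb⟩ : ∃ b : ℝ, b = ((10 : ℝ) ^ 36 * 100000) ^ 12 := ⟨_, rfl⟩
  have ha1 : b ≤ a := by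
    rw [ha, hb]
    calc ((10 : ℝ) ^ 36 * 100000) ^ 12 ≤ (2 ^ 137) ^ 12 :=
          pow_le_pow_left₀ (by positivity) (by norm_num) 12
      _ = 2 ^ (137 * 12) := (pow_mul 2 137 12).symm
      _ ≤ 2 ^ L := pow_le_pow_right₀ (by norm_num) (by omega)
  have ha2 : a * 10 ^ 60 ≤ X := by
    have h2 : ((2 ^ (L + 200) : ℕ) : ℝ) ≤ X := by exact_mod_cast hX1
    rw [Nat.cast_pow, Nat.cast_ofNat, pow_add, ← ha] at h2
    refine le_trans ?_ h2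
    have ha0 : 0 ≤ a := by rw [ha]; positivity
    gcongr
    norm_num
  have ha3 : (1 : ℝ) ≤ a := by
    rw [ha]
    exact one_le_pow₀ (by norm_num)
  have h2 : ((bad L X).card : ℝ) ≤
      X * (5 / 10 ^ 30) + 100000 * ((X : ℝ) / 10 ^ 36) + 3 * (X / 10 ^ 60) := by
    rw [hZr, ← ha, ← hb] at h1
    have h3 := mul_le_mul_of_nonneg_left hprod hX0
    have h5 : a ≤ X / 10 ^ 60 := by
      rw [le_div_iff₀ (by positivity)]
      exact ha2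
    linarith
  have h4 : ((10 ^ 29 * (bad L X).card : ℕ) : ℝ) ≤ (X : ℝ) := by
    rw [Nat.cast_mul, Nat.cast_pow, Nat.cast_ofNat]
    have h5 : (10 : ℝ) ^ 29 * (bad L X).card ≤
        10 ^ 29 * (X * (5 / 10 ^ 30) + 100000 * ((X : ℝ) / 10 ^ 36) + 3 * (X / 10 ^ 60)) := by
      gcongr
    refine h5.trans ?_
    have h6 : (10 : ℝ) ^ 29 * (X * (5 / 10 ^ 30) + 100000 * ((X : ℝ) / 10 ^ 36) +
        3 * (X / 10 ^ 60)) = X * (51 / 100 + 3 / 10 ^ 31) := by ring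
    rw [h6]
    have h7 : (51 / 100 + 3 / 10 ^ 31 : ℝ) ≤ 1 := by norm_num
    calc (X : ℝ) * (51 / 100 + 3 / 10 ^ 31) ≤ X * 1 := by gcongr
      _ = X := mul_one _
  have h7 : 10 ^ 29 * (bad L X).card ≤ X := by exact_mod_cast h4
  have h8 : (Finset.range X).filter
      (fun n => Odd n ∧ ¬ ∃ k l : ℕ, Squarefree k ∧ l < 100000 ∧ n = k + 2 ^ (l + 1)) =
        bad L X := by
    ext n
    rw [mem_bad, Finset.mem_filter, Finset.mem_range, hL]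
  rw [h8]
  exact h7

end SqfDen
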