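import Pool.Agent.SqfDen.Defs

/-! Counting integers hit by squares of many different primes: induction over residue classes
modulo products of squares of distinct primes. -/

namespace SqfDen

/-- A residue class in an initial segment. -/
theorem card_class (X q a : ℕ) (hq : 0 < q) :
    (((Finset.range X).filter (fun n => n ≡ a [MOD q])).card : ℝ) ≤ (X : ℝ) / q + 1 := by
  have h := Nat.count_modEq_card X hq a
  rw [Nat.count_eq_card_filter_range] at h
  rw [h]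
  have h2 : ((X / q : ℕ) : ℝ) ≤ (X : ℝ) / q := Nat.cast_div_le
  split_ifs <;> push_cast <;> linarith

theorem count_step (T : Finset ℕ) (hT : ∀ p ∈ T, p.Prime) (L M W k : ℕ) (S : ℝ)
    (hS : (L : ℝ) * ∑ p ∈ T, ((p : ℝ) ^ 2)⁻¹ ≤ S) (hk : ∀ j < k, j * M < W) :
    ∀ i ≤ k, ∀ (X : ℕ) (B : Finset ℕ), B ⊆ Finset.range X →
      (∀ n ∈ B, W ≤ ∑ p ∈ T, hits L n p) → (∀ n ∈ B, ∀ p ∈ T, hits L n p ≤ M) →
      ∀ P ⊆ T, P.card = k - i → ∀ a : ℕ,
      ((B.filter (fun n => n ≡ a [MOD ∏ p ∈ P, p ^ 2])).card : ℝ) ≤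
        X * (∏ j ∈ Finset.Ico (k - i) k, (S / ((W : ℝ) - j * M))) *
          ((∏ p ∈ P, p ^ 2 : ℕ) : ℝ)⁻¹ + ((T.card : ℝ) * L) ^ i := by
  have hS0 : 0 ≤ S := le_trans (by positivity) hS
  intro i
  induction i with
  | zero =>
    intro _ X B hB _ _ P hP hc a
    have hq : 0 < ∏ p ∈ P, p ^ 2 := Finset.prod_pos (fun p hp => pow_pos (hT p (hP hp)).pos 2)
    have h1 : (B.filter (fun n => n ≡ a [MOD ∏ p ∈ P, p ^ 2])).card ≤
        ((Finset.range X).filter (fun n => n ≡ a [MOD ∏ p ∈ P, p ^ 2])).card :=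
      Finset.card_le_card (Finset.filter_subset_filter _ hB)
    have h1' : ((B.filter (fun n => n ≡ a [MOD ∏ p ∈ P, p ^ 2])).card : ℝ) ≤
        (((Finset.range X).filter (fun n => n ≡ a [MOD ∏ p ∈ P, p ^ 2])).card : ℝ) := by
      exact_mod_cast h1
    have h2 := card_class X _ a hq
    rw [Nat.sub_zero, Finset.Ico_self, Finset.prod_empty, mul_one, ← div_eq_mul_inv, pow_zero]
    exact h1'.trans h2
  | succ i ih =>
    intro hi
    obtain ⟨R, hRdef⟩ : ∃ R, R = ((T.card : ℝ) * L) ^ i := ⟨_, rfl⟩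
    have hR0 : 0 ≤ R := by rw [hRdef]; positivity
    have hR := ih (by omega)
    rw [← hRdef] at hR
    obtain ⟨j, hj⟩ : ∃ j, j = k - (i + 1) := ⟨_, rfl⟩
    have hjk : j < k := by omega
    have hj1 : k - i = j + 1 := by omega
    have hW : (0 : ℝ) < (W : ℝ) - j * M := by
      have h := hk j hjk
      have h' : ((j * M : ℕ) : ℝ) < W := by exact_mod_cast h
      push_cast at h'
      linarith
    have hW1' : (1 : ℝ) ≤ (W : ℝ) - j * M := by
      have h : j * M + 1 ≤ W := hk j hjk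
      have h' : ((j * M + 1 : ℕ) : ℝ) ≤ W := by exact_mod_cast h
      push_cast at h'
      linarith
    intro X B hB hW1 hM P hP hc a
    rw [← hj] at hc ⊢
    rw [hj1] at hR
    obtain ⟨q, hq⟩ : ∃ q, q = ∏ p ∈ P, p ^ 2 := ⟨_, rfl⟩
    rw [← hq]
    obtain ⟨C, hC⟩ : ∃ C, C = B.filter (fun n => n ≡ a [MOD q]) := ⟨_, rfl⟩
    rw [← hC]
    obtain ⟨Θ, hΘ⟩ : ∃ Θ, Θ = ∏ j ∈ Finset.Ico (j + 1) k, (S / ((W : ℝ) - j * M)) := ⟨_, rfl⟩
    have hΘ0 : 0 ≤ Θ := by
      rw [hΘ]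
      refine Finset.prod_nonneg (fun j' hj' => div_nonneg hS0 ?_)
      have h := hk j' (Finset.mem_Ico.1 hj').2
      have h' : ((j' * M : ℕ) : ℝ) < W := by exact_mod_cast h
      push_cast at h'
      linarith
    have key : (C.card : ℝ) * ((W : ℝ) - j * M) ≤ ∑ p ∈ T \ P, ∑ l ∈ Finset.Icc 1 L,
        ((C.filter (fun n => n ≡ 2 ^ l [MOD p ^ 2])).card : ℝ) := by
      have h1 : ∀ n ∈ C, (W : ℝ) - j * M ≤ ∑ p ∈ T \ P, (hits L n p : ℝ) := by
        intro n hn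
        rw [hC] at hn
        have hnB : n ∈ B := (Finset.mem_filter.1 hn).1
        have h2 : ∑ p ∈ T \ P, (hits L n p : ℝ) + ∑ p ∈ P, (hits L n p : ℝ) =
            ∑ p ∈ T, (hits L n p : ℝ) := Finset.sum_sdiff hP
        have h3 : ∑ p ∈ P, (hits L n p : ℝ) ≤ j * M := by
          calc ∑ p ∈ P, (hits L n p : ℝ) ≤ ∑ p ∈ P, (M : ℝ) :=
                Finset.sum_le_sum (fun p hp => by exact_mod_cast hM n hnB p (hP hp))
            _ = j * M := by rw [Finset.sum_const, hc, nsmul_eq_mul]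
        have h4 : (W : ℝ) ≤ ∑ p ∈ T, (hits L n p : ℝ) := by exact_mod_cast hW1 n hnB
        linarith
      calc (C.card : ℝ) * ((W : ℝ) - j * M) = ∑ n ∈ C, ((W : ℝ) - j * M) := by
            rw [Finset.sum_const, nsmul_eq_mul]
        _ ≤ ∑ n ∈ C, ∑ p ∈ T \ P, (hits L n p : ℝ) := Finset.sum_le_sum h1
        _ = ∑ p ∈ T \ P, ∑ n ∈ C, (hits L n p : ℝ) := Finset.sum_comm
        _ = ∑ p ∈ T \ P, ∑ l ∈ Finset.Icc 1 L,
              ((C.filter (fun n => n ≡ 2 ^ l [MOD p ^ 2])).card : ℝ) := by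
          refine Finset.sum_congr rfl (fun p _ => ?_)
          simp only [hits, Finset.card_filter, Nat.cast_sum]
          rw [Finset.sum_comm]
    have bound : ∀ p ∈ T \ P, ∀ l ∈ Finset.Icc 1 L,
        ((C.filter (fun n => n ≡ 2 ^ l [MOD p ^ 2])).card : ℝ) ≤
          X * Θ * (q : ℝ)⁻¹ * ((p : ℝ) ^ 2)⁻¹ + R := by
      intro p hp l _
      have hpT := (Finset.mem_sdiff.1 hp).1
      have hpP := (Finset.mem_sdiff.1 hp).2
      have hcop : Nat.Coprime q (p ^ 2) := by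
        rw [hq]
        refine Nat.Coprime.prod_left (fun r hr => Nat.Coprime.pow 2 2 ?_)
        exact (Nat.coprime_primes (hT r (hP hr)) (hT p hpT)).2 (by rintro rfl; exact hpP hr)
      have hsub : C.filter (fun n => n ≡ 2 ^ l [MOD p ^ 2]) ⊆
          B.filter (fun n => n ≡ ((Nat.chineseRemainder hcop a (2 ^ l) : ℕ))
            [MOD ∏ r ∈ insert p P, r ^ 2]) := by
        intro n hn
        rw [Finset.mem_filter] at hn
        obtain ⟨hnC, hnp⟩ := hn
        rw [hC, Finset.mem_filter] at hnC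
        rw [Finset.mem_filter]
        refine ⟨hnC.1, ?_⟩
        rw [Finset.prod_insert hpP, mul_comm, ← hq]
        exact Nat.chineseRemainder_modEq_unique hcop hnC.2 hnp
      have h5 := hR X B hB hW1 hM (insert p P) (Finset.insert_subset hpT hP)
        (by rw [Finset.card_insert_of_notMem hpP, hc])
        (Nat.chineseRemainder hcop a (2 ^ l) : ℕ)
      rw [← hΘ, Finset.prod_insert hpP, ← hq] at h5
      have h6 : ((C.filter (fun n => n ≡ 2 ^ l [MOD p ^ 2])).card : ℝ) ≤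
          ((B.filter (fun n => n ≡ ((Nat.chineseRemainder hcop a (2 ^ l) : ℕ))
            [MOD p ^ 2 * q])).card : ℝ) := by
        have h7 := Finset.card_le_card hsub
        rw [Finset.prod_insert hpP, ← hq] at h7
        exact_mod_cast h7
      refine (h6.trans h5).trans (le_of_eq ?_)
      push_cast
      rw [mul_inv]
      ring
    have hsum : ∑ p ∈ T \ P, ∑ l ∈ Finset.Icc 1 L,
        ((C.filter (fun n => n ≡ 2 ^ l [MOD p ^ 2])).card : ℝ) ≤
          X * Θ * (q : ℝ)⁻¹ * S + T.card * L * R := by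
      have hXΘ : 0 ≤ X * Θ * (q : ℝ)⁻¹ := by positivity
      calc ∑ p ∈ T \ P, ∑ l ∈ Finset.Icc 1 L,
            ((C.filter (fun n => n ≡ 2 ^ l [MOD p ^ 2])).card : ℝ)
          ≤ ∑ p ∈ T \ P, ∑ l ∈ Finset.Icc 1 L,
              (X * Θ * (q : ℝ)⁻¹ * ((p : ℝ) ^ 2)⁻¹ + R) :=
            Finset.sum_le_sum (fun p hp => Finset.sum_le_sum (fun l hl => bound p hp l hl))
        _ = ∑ p ∈ T \ P, (L : ℝ) * (X * Θ * (q : ℝ)⁻¹ * ((p : ℝ) ^ 2)⁻¹ + R) := by
            refine Finset.sum_congr rfl (fun p _ => ?_)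
            rw [Finset.sum_const, nsmul_eq_mul, Nat.card_Icc, Nat.add_sub_cancel]
        _ ≤ ∑ p ∈ T, (L : ℝ) * (X * Θ * (q : ℝ)⁻¹ * ((p : ℝ) ^ 2)⁻¹ + R) := by
            refine Finset.sum_le_sum_of_subset_of_nonneg Finset.sdiff_subset (fun p _ _ => ?_)
            positivity
        _ = X * Θ * (q : ℝ)⁻¹ * ((L : ℝ) * ∑ p ∈ T, ((p : ℝ) ^ 2)⁻¹) + T.card * L * R := by
            rw [← Finset.mul_sum, Finset.sum_add_distrib, ← Finset.mul_sum, Finset.sum_const,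
              nsmul_eq_mul]
            ring
        _ ≤ X * Θ * (q : ℝ)⁻¹ * S + T.card * L * R := by
            gcongr
    rw [Finset.prod_eq_prod_Ico_succ_bot hjk, ← hΘ]
    have h8 := key.trans hsum
    rw [← le_div_iff₀ hW] at h8
    have h9 : (X * Θ * (q : ℝ)⁻¹ * S + T.card * L * R) / ((W : ℝ) - j * M) =
        X * (S / ((W : ℝ) - j * M) * Θ) * (q : ℝ)⁻¹ + T.card * L * R / ((W : ℝ) - j * M) := by
      field_simp
    have h10 : T.card * L * R / ((W : ℝ) - j * M) ≤ ((T.card : ℝ) * L) ^ (i + 1) := by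
      rw [pow_succ, ← hRdef]
      refine (div_le_self (by positivity) hW1').trans (le_of_eq ?_)
      ring
    rw [h9] at h8
    linarith

theorem count_induct (T : Finset ℕ) (hT : ∀ p ∈ T, p.Prime) (L M W k : ℕ) (S : ℝ)
    (hS : (L : ℝ) * ∑ p ∈ T, ((p : ℝ) ^ 2)⁻¹ ≤ S) (hk : ∀ j < k, j * M < W) (X : ℕ)
    (B : Finset ℕ) (hB : B ⊆ Finset.range X) (hW : ∀ n ∈ B, W ≤ ∑ p ∈ T, hits L n p)
    (hM : ∀ n ∈ B, ∀ p ∈ T, hits L n p ≤ M) :
    (B.card : ℝ) ≤ X * ∏ j ∈ Finset.range k, (S / ((W : ℝ) - j * M)) +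
      ((T.card : ℝ) * L) ^ k := by
  have h := count_step T hT L M W k S hS hk k le_rfl X B hB hW hM ∅
    (Finset.empty_subset _) (by simp) 0
  have h1 : B.filter (fun n => n ≡ 0 [MOD ∏ p ∈ (∅ : Finset ℕ), p ^ 2]) = B := by
    refine Finset.filter_true_of_mem (fun n _ => ?_)
    rw [Finset.prod_empty]
    exact Nat.modEq_one
  rw [h1, Nat.sub_self, Finset.prod_empty, Nat.cast_one, inv_one, mul_one] at h
  rwa [Finset.range_eq_Ico]

end SqfDen
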