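import Mathlib

/-! MP_e63129_nt: squarefree numbers plus powers of 2. -/

namespace SqfDen

/-- `n` is a squarefree number plus `s` powers of 2 (equal exponents allowed). -/
def SumPow (s n : ℕ) : Prop :=
  ∃ k : ℕ, Squarefree k ∧ ∃ e : Fin s → ℕ, n = k + ∑ i, 2 ^ e i

/-- The number of exponents `1 ≤ l ≤ L` with `n ≡ 2 ^ l` modulo `p ^ 2`. -/
def hits (L n p : ℕ) : ℕ :=
  ((Finset.Icc 1 L).filter (fun l => n ≡ 2 ^ l [MOD p ^ 2])).card

end SqfDen
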