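import Pool.Agent.SqfDen.Defs
/-! package B2 (helper41, double): the gap lemma and the big block. -/

set_option autoImplicit false

namespace SqfDen

open Finset

/-- If the powers `2 ^ j`, `0 < j < D`, are not `1` modulo `p ^ 2`, then the exponents of a class
are at distance at least `D`. -/
theorem hits_le (L n p D : ℕ) (hp : p.Prime) (hp2 : p ≠ 2) (hD : 0 < D)
    (h : ∀ j, 0 < j → j < D → 2 ^ j % p ^ 2 ≠ 1) : hits L n p ≤ L / D + 1 := by
  have hcop : Nat.Coprime (p ^ 2) 2 :=
    Nat.Coprime.pow_left 2 ((Nat.coprime_primes hp Nat.prime_two).2 hp2)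
  have h1p : 1 < p ^ 2 := Nat.one_lt_pow two_ne_zero hp.one_lt
  have key : ∀ a b : ℕ, a < b → n ≡ 2 ^ a [MOD p ^ 2] → n ≡ 2 ^ b [MOD p ^ 2] → a / D ≠ b / D := by
    intro a b hab ha hb hdiv
    have h1 : 2 ^ a * 2 ^ (b - a) ≡ 2 ^ a * 1 [MOD p ^ 2] := by
      rw [← pow_add, mul_one, Nat.add_sub_cancel' hab.le]
      exact hb.symm.trans ha
    have h2 : 2 ^ (b - a) ≡ 1 [MOD p ^ 2] :=
      Nat.ModEq.cancel_left_of_coprime (Nat.Coprime.pow_right a hcop) h1
    have h3 : b - a < D := by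
      have e1 := Nat.div_add_mod a D
      have e2 := Nat.div_add_mod b D
      have e3 := Nat.mod_lt a hD
      have e4 := Nat.mod_lt b hD
      rw [hdiv] at e1
      omega
    refine h (b - a) (by omega) h3 ?_
    have h4 : 2 ^ (b - a) % p ^ 2 = 1 % p ^ 2 := h2
    rw [h4, Nat.mod_eq_of_lt h1p]
  unfold hits
  have h1 : ((Icc 1 L).filter fun l => n ≡ 2 ^ l [MOD p ^ 2]).card ≤
      (range (L / D + 1)).card := by
    refine card_le_card_of_injOn (fun l => l / D) (fun l hl => ?_) (fun a ha b hb hab => ?_)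
    · simp only [coe_filter, mem_Icc, Set.mem_ofPred_eq] at hl
      simp only [coe_range, Set.mem_Iio]
      exact Nat.lt_succ_of_le (Nat.div_le_div_right hl.1.2)
    · simp only [coe_filter, mem_Icc, Set.mem_ofPred_eq] at ha hb
      simp only at hab
      rcases Nat.lt_trichotomy a b with h1 | h1 | h1
      · exact absurd hab (key a b h1 ha.2 hb.2)
      · exact h1
      · exact absurd hab.symm (key b a h1 hb.2 ha.2)
  rwa [card_range] at h1

theorem big_block (n p : ℕ) (hp : p.Prime) (h : 1000 < p) : hits 100000 n p ≤ 5001 := by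
  refine hits_le 100000 n p 20 hp (by omega) (by norm_num) fun j h0 h1 => ?_
  have h2 : 2 ^ j ≤ 2 ^ 19 := Nat.pow_le_pow_right (by norm_num) (by omega)
  have h3 : 1000 ^ 2 < p ^ 2 := Nat.pow_lt_pow_left h two_ne_zero
  have h4 : 2 ^ 1 ≤ 2 ^ j := Nat.pow_le_pow_right (by norm_num) h0
  norm_num at h2 h3 h4
  rw [Nat.mod_eq_of_lt (by omega)]
  omega

end SqfDen
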